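import Pool.Agent.Lib.MP_b442e4_al.LF.YTwo
import Pool.Agent.Lib.MP_b442e4_al.LF.Neg2

/-!
For a variety whose finitely generated groups are finite-by-nilpotent (for instance a locally finite
or a locally nilpotent variety) the decomposition of projective groups holds exactly when the
variety is locally nilpotent.
-/

set_option autoImplicit false

namespace Pool.Agent.Results.MP_b442e4_al.FiniteByNilpotent

open Pool.Agent.Lib.MP_b442e4_al.LF

/-- Let every finitely generated group of the variety defined by the laws `S` have a finite term in
its lower central series.  Then every projective group of the variety that is not finitely generated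
is a free product in the variety of countably generated projective groups if and only if every
finitely generated group of the variety is nilpotent. -/
theorem result (S : Set (FreeGroup ℕ))
    (hS : ∀ (G : Type) [Group G], InVar S G → Group.FG G →
      ∃ c : ℕ, Finite ((⊤ : Subgroup G).lowerCentralSeries c)) :
    (∀ (P : Type) [Group P], InVar S P → Proj S P → ¬ Group.FG P →
      ∃ (I : Type) (H : I → Type) (_ : ∀ i, Group (H i)) (ι : ∀ i, H i →* P),
        (∀ i, InVar S (H i) ∧ (∃ s : Set (H i), s.Countable ∧ Subgroup.closure s = ⊤) ∧
          Proj S (H i)) ∧ IsFreeProduct S P H ι) ↔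
    ∀ (G : Type) [Group G], InVar S G → Group.FG G → Group.IsNilpotent G := by
  constructor
  · intro h G _ hG hfg
    by_contra hn
    obtain ⟨P, _, hV, hP, hc, T, hT, hN⟩ := exists_big2 hS hG hfg hn
    obtain ⟨I, H, _, ι, hH, hU⟩ := h P hV hP fun hfg => by
      obtain ⟨s, h1, h2⟩ := Group.fg_iff.1 hfg
      exact hc (countable_of_closure h2.countable h1)
    exact hc (countable_of_free_product hV hT hN H ι (fun i => by
      obtain ⟨s, h1, h2⟩ := (hH i).2.1
      exact countable_of_closure h1 h2) hU)
  · intro h P _ hV hP _
    obtain ⟨I, H, _, ι, hH, hU⟩ := yes_side2 S h P hV hP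
    exact ⟨I, H, inferInstance, ι, fun i => (hH i).2, hU⟩

/-- The locally finite case, in the form of the earlier statement. -/
theorem locallyFinite (S : Set (FreeGroup ℕ))
    (hS : ∀ (G : Type) [Group G], InVar S G → Group.FG G → Finite G) :
    (∀ (P : Type) [Group P], InVar S P → Proj S P → ¬ Group.FG P →
      ∃ (I : Type) (H : I → Type) (_ : ∀ i, Group (H i)) (ι : ∀ i, H i →* P),
        (∀ i, InVar S (H i) ∧ (∃ s : Set (H i), s.Countable ∧ Subgroup.closure s = ⊤) ∧
          Proj S (H i)) ∧ IsFreeProduct S P H ι) ↔
    ∀ (G : Type) [Group G], InVar S G → Finite G → Group.IsNilpotent G := by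
  refine (result S fun G _ hG hfg => ⟨0, ?_⟩).trans
    ⟨fun h G _ hG _ => h G hG inferInstance, fun h G _ hG hfg => h G hG (hS G hG hfg)⟩
  have := hS G hG hfg
  infer_instance

end Pool.Agent.Results.MP_b442e4_al.FiniteByNilpotent
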