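import Pool.Agent.Lib.MP_b442e4_al.Univ

/-!
A projective group of the variety `x ^ 6 = 1`, `[x ^ 2, y ^ 2] = 1` that is not finitely generated
and is not a free product, in the variety, of countably generated groups.  The free product in the
variety is taken in its concrete form: ordinary free product modulo the verbal subgroup.
-/

set_option autoImplicit false

namespace Pool.Agent.Results.MP_b442e4_al.VerbalProduct

universe u v w

/-- `G` satisfies every law in `S`. -/
def InVar (S : Set (FreeGroup ℕ)) (G : Type w) [Group G] : Prop :=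
  ∀ r ∈ S, ∀ f : ℕ → G, FreeGroup.lift f r = 1

/-- The verbal subgroup: generated by all values in `G` of the laws in `S`. -/
def verbal (S : Set (FreeGroup ℕ)) (G : Type w) [Group G] : Subgroup G :=
  Subgroup.closure {g | ∃ r ∈ S, ∃ f : ℕ → G, FreeGroup.lift f r = g}

theorem lift_map {G : Type u} {K : Type v} [Group G] [Group K] (θ : G →* K) (f : ℕ → G)
    (r : FreeGroup ℕ) : θ (FreeGroup.lift f r) = FreeGroup.lift (fun n => θ (f n)) r := by
  have h : θ.comp (FreeGroup.lift f) = FreeGroup.lift (fun n => θ (f n)) := by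
    ext n
    simp
  exact DFunLike.congr_fun h r

instance verbal_normal (S : Set (FreeGroup ℕ)) (G : Type w) [Group G] : (verbal S G).Normal := by
  refine ⟨fun n hn g => ?_⟩
  have h : (verbal S G).map (MulAut.conj g).toMonoidHom ≤ verbal S G := by
    rw [verbal, MonoidHom.map_closure]
    refine Subgroup.closure_mono ?_
    rintro _ ⟨_, ⟨r, hr, f, rfl⟩, rfl⟩
    exact ⟨r, hr, _, (lift_map _ f r).symm⟩
  exact h ⟨n, hn, rfl⟩

/-- Projective in the variety defined by `S`: the lifting property. -/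
def Proj (S : Set (FreeGroup ℕ)) (P : Type) [Group P] : Prop :=
  ∀ (A B : Type) [Group A] [Group B], InVar S A → InVar S B →
    ∀ α : A →* B, Function.Surjective α → ∀ β : P →* B, ∃ γ : P →* A, α.comp γ = β

/-- The laws `x ^ 6` and `[x ^ 2, y ^ 2]`. -/
def lawsS3 : Set (FreeGroup ℕ) :=
  {(FreeGroup.of 0) ^ 6,
    (FreeGroup.of 0) ^ 2 * (FreeGroup.of 1) ^ 2 * ((FreeGroup.of 1) ^ 2 * (FreeGroup.of 0) ^ 2)⁻¹}

theorem inVar_quot (S : Set (FreeGroup ℕ)) (G : Type w) [Group G] : InVar S (G ⧸ verbal S G) := by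
  intro r hr f
  choose f' hf' using fun n => QuotientGroup.mk'_surjective (verbal S G) (f n)
  have e : f = fun n => QuotientGroup.mk' (verbal S G) (f' n) := funext fun n => (hf' n).symm
  rw [e, ← lift_map, QuotientGroup.mk'_apply, QuotientGroup.eq_one_iff]
  exact Subgroup.subset_closure ⟨r, hr, f', rfl⟩

theorem verbal_le_ker {S : Set (FreeGroup ℕ)} {G : Type u} {K : Type v} [Group G] [Group K]
    (hK : InVar S K) (θ : G →* K) : verbal S G ≤ θ.ker := by
  refine (Subgroup.closure_le _).mpr ?_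
  rintro _ ⟨r, hr, f, rfl⟩
  rw [SetLike.mem_coe, MonoidHom.mem_ker, lift_map]
  exact hK r hr _

open Lib.MP_b442e4_al in
theorem result :
    ∃ (P : Type) (_ : Group P),
      InVar lawsS3 P ∧ Proj lawsS3 P ∧
      (∃ (X : Type) (i : P →* FreeGroup X ⧸ verbal lawsS3 (FreeGroup X))
        (ρ : (FreeGroup X ⧸ verbal lawsS3 (FreeGroup X)) →* P), ∀ g, ρ (i g) = g) ∧
      ¬ Group.FG P ∧
      ∀ (I : Type u) (H : I → Type v) [∀ i, Group (H i)],
        (∀ i, ∃ s : Set (H i), s.Countable ∧ Subgroup.closure s = ⊤) →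
        IsEmpty (P ≃* (Monoid.CoprodI H ⧸ verbal lawsS3 (Monoid.CoprodI H))) := by
  have hP : InVar lawsS3 P := P_laws
  refine ⟨P, inferInstance, hP, fun A B _ _ hA _ α hα β => P_projective A B hA α hα β, ?_,
    P_not_fg, fun I H _ hH => ⟨fun e => ?_⟩⟩
  · let ρ : (FreeGroup P ⧸ verbal lawsS3 (FreeGroup P)) →* P :=
      QuotientGroup.lift _ (FreeGroup.lift id) (verbal_le_ker hP _)
    have hρ : Function.Surjective ρ := fun g =>
      ⟨QuotientGroup.mk' _ (FreeGroup.of g), by simp [ρ]⟩
    obtain ⟨i, hi⟩ := P_projective _ P (inVar_quot lawsS3 (FreeGroup P)) ρ hρ (MonoidHom.id P)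
    exact ⟨P, i, ρ, fun g => DFunLike.congr_fun hi g⟩
  · refine P_not_coproduct_univ I H
      (fun i => e.symm.toMonoidHom.comp ((QuotientGroup.mk' _).comp (Monoid.CoprodI.of (i := i))))
      (fun i => by
        obtain ⟨s, hs, hs'⟩ := hH i
        exact countable_of_closure_univ hs hs') ?_
    intro K _ hK g
    let θ : (Monoid.CoprodI H ⧸ verbal lawsS3 (Monoid.CoprodI H)) →* K :=
      QuotientGroup.lift _ (Monoid.CoprodI.lift g) (verbal_le_ker hK _)
    refine ⟨θ.comp e.toMonoidHom, fun i => ?_, fun θ' h' => ?_⟩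
    · ext x
      simp [θ]
    · have h1 : θ'.comp e.symm.toMonoidHom = θ := by
        refine QuotientGroup.monoidHom_ext _ (Monoid.CoprodI.ext_hom _ _ fun i => ?_)
        ext x
        have := DFunLike.congr_fun (h' i) x
        simpa [θ] using this
      ext x
      rw [← h1]
      simp

end Pool.Agent.Results.MP_b442e4_al.VerbalProduct
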